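import Pool.Agent.H24.Seg2

set_option autoImplicit false

namespace Pool.Agent.Results.MP_16f91c_lc.NPComplete
open Pool.Agent.H11.PT Pool.Agent.H24.Seg

theorem result : ∀ g : ℕ, 3 ≤ g → NPComplete (SegCol g) := main

end Pool.Agent.Results.MP_16f91c_lc.NPComplete
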